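import Mathlib
import Pool.Agent.Helper741.NegCircles
import Pool.Agent.Helper741.NegFinal
import Pool.Agent.Helper741.NegGcd

namespace Pool.Agent.Results.MP_90430c_co.Gcd

open Pool.Agent.Helper741.NegCircles

/-- The set `S(n,l)` of all numbers of negative circles of length `l` in signatures of the
complete graph on `n` vertices. -/
noncomputable def S (n l : ℕ) : Set ℕ := Set.range (negCount n l)

/-- The greatest common divisor of the elements of `S(n,l)` is a power of two `2 ^ e` with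
`l - 2 - ⌊log₂ (l - 1)⌋ ≤ e ≤ l - 1`, and for `n = l` the exponent is exactly
`l - 2 - ⌊log₂ (l - 1)⌋`. -/
theorem result (n l : ℕ) (hl : 3 ≤ l) (hn : l ≤ n) :
    ∃ e : ℕ, l - 2 - Nat.log 2 (l - 1) ≤ e ∧ e ≤ l - 1 ∧
      (n = l → e = l - 2 - Nat.log 2 (l - 1)) ∧
      ∀ d : ℕ, (∀ v ∈ S n l, d ∣ v) ↔ d ∣ 2 ^ e := by
  classical
  set P : ℕ → Prop := fun e => ∀ v ∈ S n l, 2 ^ e ∣ v with hP
  have hlow : P (l - 2 - Nat.log 2 (l - 1)) := by
    rintro _ ⟨σ, rfl⟩
    exact dvd_negCount_strong hl σ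
  have hle : l - 2 - Nat.log 2 (l - 1) ≤ l - 1 := by omega
  have hspec : P (Nat.findGreatest P (l - 1)) := Nat.findGreatest_spec hle hlow
  refine ⟨Nat.findGreatest P (l - 1), Nat.le_findGreatest hle hlow, Nat.findGreatest_le _,
    ?_, ?_⟩
  · rintro rfl
    apply le_antisymm _ (Nat.le_findGreatest hle hlow)
    have h := gcd_exact hl (2 ^ Nat.findGreatest P (n - 1)) (fun σ => hspec _ ⟨σ, rfl⟩)
    exact (Nat.pow_dvd_pow_iff_le_right (by norm_num)).1 h
  · intro d
    constructor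
    · intro hd
      have h := gcd_upper hl hn d (fun σ => hd _ ⟨σ, rfl⟩)
      obtain ⟨a, ha, rfl⟩ := (Nat.dvd_prime_pow Nat.prime_two).1 h
      exact pow_dvd_pow 2 (Nat.le_findGreatest ha hd)
    · intro hd v hv
      exact dvd_trans hd (hspec v hv)

end Pool.Agent.Results.MP_90430c_co.Gcd
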