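import Mathlib
import Pool.Agent.Helper741.NegCircles
import Pool.Agent.Helper741.NegFinal

namespace Pool.Agent.Results.MP_90430c_co.Strong

open Pool.Agent.Helper741.NegCircles

/-- The set `S(n,l)` of all numbers of negative circles of length `l` in signatures of the
complete graph on `n` vertices. -/
noncomputable def S (n l : ℕ) : Set ℕ := Set.range (negCount n l)

/-- Every element of `S(n,l)`, `l ≥ 3`, is divisible by `2 ^ (l - 2 - ⌊log₂ (l - 1)⌋)`. -/
theorem result (n l : ℕ) (hl : 3 ≤ l) :
    ∀ v ∈ S n l, 2 ^ (l - 2 - Nat.log 2 (l - 1)) ∣ v := by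
  rintro _ ⟨σ, rfl⟩
  exact dvd_negCount_strong hl σ

end Pool.Agent.Results.MP_90430c_co.Strong
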